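import Pool.Agent.Y8.DI.All

/-!
MP_09540e_an: finite-time blow-up of swirl-free axisymmetric flows in `ℝ³` for the Navier-Stokes
equations with an additional axisymmetric dissipation `D ≥ 0` (without `D` all swirl-free
axisymmetric flows are global).

For every viscosity `ν > 0` and every functional `Λ` of the fields there are a complete orthonormal
system `e` in the space of the axisymmetric divergence-free fields of `L²(ℝ³)`, of smooth compactly
supported fields, each of them without swirl or with swirl only, and a self-adjoint linear operator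
`D = ∑ lam i ⟨·, e i⟩ e i ≥ 0`, which vanishes on the swirl and on a sequence `e (ψ n)` of
swirl-free modes (their supports shrink to the origin) and is as strong as we like on all the other
swirl-free modes (`Λ (e i) ≤ lam i`), such that

  `∂ₜ u + (u · ∇) u + ∇p = ν Δ u - D u`,  `div u = 0`

with the swirl-free datum `u(0) = e (ψ 0)` has a unique maximal solution in `H^∞` among the
axisymmetric flows; it is swirl-free, satisfies the energy identity, its velocity blows up in
finite time, and away from the origin it stays bounded with all its derivatives.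
-/

set_option autoImplicit false

open Set MeasureTheory Metric

namespace Pool.Agent.Results.MP_09540e_an.AddedDissipation

open Pool.Agent.Y303.SK Pool.Agent.Y8.DI

theorem result (ν : ℝ) (Λ : (EuclideanSpace ℝ (Fin 3) → EuclideanSpace ℝ (Fin 3)) → ℝ)
    (hν : 0 < ν) :
    ∃ (ι : Type) (e : ι → EuclideanSpace ℝ (Fin 3) → EuclideanSpace ℝ (Fin 3)) (lam : ι → ℝ)
      (ψ : ℕ → ι) (T : ℝ) (u : ℝ → EuclideanSpace ℝ (Fin 3) → EuclideanSpace ℝ (Fin 3)),
      DissX e lam ∧
      -- the swirl-free modes without damping concentrate at the origin; all the other swirl-free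
      -- modes are strongly damped
      (∀ n, Pol (e (ψ n)) ∧ lam (ψ n) = 0) ∧
      (∀ i, (∀ n, i ≠ ψ n) → (Swl (e i) ∧ lam i = 0) ∨
        (Pol (e i) ∧ 0 < lam i ∧ Λ (e i) ≤ lam i)) ∧
      (∀ ρ > 0, ∃ N, ∀ n ≥ N, tsupport (e (ψ n)) ⊆ ball 0 ρ) ∧
      0 < T ∧ SolLX ν e lam T u ∧ u 0 = e (ψ 0) ∧ (∀ t ∈ Ico 0 T, Pol (u t)) ∧
      -- uniqueness, and `T` is the maximal time of existence
      (∀ (T' : ℝ) (v : ℝ → EuclideanSpace ℝ (Fin 3) → EuclideanSpace ℝ (Fin 3)), 0 < T' →
        SolLX ν e lam T' v → v 0 = u 0 → T' ≤ T ∧ ∀ t ∈ Ico 0 T', v t = u t) ∧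
      -- the energy identity
      (∀ t ∈ Ico 0 T, Summable (fun i => lam i * ipr (u t) (e i) ^ 2) ∧
        HasDerivWithinAt (fun τ => ipr (u τ) (u τ))
        (-(2 * (ν * dirf (u t) (u t) + ∑' i, lam i * ipr (u t) (e i) ^ 2))) (Ico 0 T) t) ∧
      -- no singularity at the time `T` away from the origin
      (∀ ρ > 0, ∀ k : ℕ, ∃ M, ∀ t ∈ Ico 0 T, ∀ x, ρ ≤ dist x 0 →
        ‖iteratedFDeriv ℝ k (u t) x‖ ≤ M) ∧
      -- blow-up of the velocity
      ∀ M : ℝ, ∃ t ∈ Ico 0 T, ∃ x, M < ‖u t x‖ :=
  t_MAINXD ν Λ hν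

end Pool.Agent.Results.MP_09540e_an.AddedDissipation
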