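import Pool.Agent.Y304.FT.Log

/-!
Axisymmetric Navier-Stokes flows with swirl: the radial inflow may be as strong as `2 ν / ρ`, up to
the sharp logarithmic correction and an error in `L²(0, T; L^∞)`. Feller type tests for the
regularity of the circulation at the axis and for ancient solutions.

`V = Fin 3 → ℝ` with the maximum norm. See the claim file for the definitions.
-/

open MeasureTheory Set Metric Filter

namespace Pool.Agent.Results.MP_09540e_an.CriticalInflow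

open H459R3.NS W221.NS Pool.Agent.TH305.AX Pool.Agent.Y304.FT

/-- Let `Γ = circ (u t)` be the circulation, `ρ = √(sg x)` the distance to the axis, `ρ u_ρ` is
`x 0 * u t x 0 + x 1 * u t x 1`. Solutions are smooth axisymmetric solutions on `[0, T) × ℝ³`,
bounded on `[0, T'] × ℝ³` for each `T' < T`.

First, let `c > 1`, `0 < α < c - 1`, `0 < ρ₀ < 1`, `g ∈ L²(0, T)` continuous, `Γ` bounded at time
`0`. If `ρ u_ρ ≥ -ν (2 - c / |log ρ|) - g(t) ρ` at the points with `ρ < ρ₀` and `|Γ| > |log ρ|^(-α)`,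
then `|Γ| ≤ C |log ρ|^(-α)` for `ρ < ρ₀`, all times in `[0, T)`.

Second, let `q ≥ 1` be continuous on `(0, ∞)` with
`∫_0^1 exp (∫_ρ^1 (q(s) - 1) / s ds) dρ < ∞`, and let `F(ρ) = scf q ρ` be this integral, from `0` to
`ρ`. Let `0 < β < 1`, `|Γ| ≤ M` and `|Γ| ≤ M (F(ρ) / F(ρ₀))^β` for `ρ ≤ ρ₀` at time `0`. Then
`|Γ| ≤ M exp (β / (4 ν (1 - β)) ∫_0^t g²) (F(ρ) / F(ρ₀))^β` for `ρ ≤ ρ₀`, if
`ρ u_ρ ≥ -ν q(ρ) - g(t) ρ` at the points with `ρ < ρ₀` at which this bound fails.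

Third, let `u` be an ancient solution, on `(-∞, 0) × ℝ³`, in the same class from each time on, with
`|Γ| ≤ M`. If for each `δ > 0` there are `q` as in the second part, with `F(ρ) → ∞` as `ρ → ∞`, and
a continuous `g` with `∫_{-∞}^t g² < ∞` for `t < 0`, such that `ρ u_ρ ≥ -ν q(ρ) - g(t) ρ` at all
points with `|Γ| > δ`, then `Γ = 0`. -/
theorem result (ν : ℝ) (hν : 0 < ν) :
    (∀ (T : ℝ) (u : ℝ → V → V) (p : ℝ → V → ℝ), BSol ν T u p →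
      ∀ (c α ρ₀ G : ℝ) (g : ℝ → ℝ), 0 < α → α < c - 1 → 0 < ρ₀ → ρ₀ < 1 →
      ContinuousOn g (Ico 0 T) → (∀ t ∈ Ico 0 T, ∫ s in (0 : ℝ)..t, g s ^ 2 ≤ G) →
      (∃ M, ∀ x, |circ (u 0) x| ≤ M) →
      (∀ t ∈ Ioo 0 T, ∀ x, 0 < sg x → √(sg x) < ρ₀ →
        |Real.log (√(sg x))| ^ (-α) < |circ (u t) x| →
        -(ν * (2 - c / |Real.log (√(sg x))|)) - g t * √(sg x)
          ≤ x 0 * u t x 0 + x 1 * u t x 1) →
      ∃ C : ℝ, ∀ t ∈ Ico 0 T, ∀ x, 0 < sg x → √(sg x) < ρ₀ →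
        |circ (u t) x| ≤ C * |Real.log (√(sg x))| ^ (-α)) ∧
    (∀ (T : ℝ) (u : ℝ → V → V) (p : ℝ → V → ℝ), BSol ν T u p →
      ∀ (M β ρ₀ : ℝ) (q g : ℝ → ℝ), ContinuousOn q (Ioi 0) → (∀ ρ, 0 < ρ → 1 ≤ q ρ) →
      IntervalIntegrable (scd q) volume 0 1 → 0 < ρ₀ → 0 < β → β < 1 →
      ContinuousOn g (Ico 0 T) → (∀ x, |circ (u 0) x| ≤ M) →
      (∀ x, √(sg x) ≤ ρ₀ → |circ (u 0) x| ≤ M * (scf q (√(sg x)) / scf q ρ₀) ^ β) →
      (∀ t ∈ Ioo 0 T, ∀ x, 0 < sg x → √(sg x) < ρ₀ →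
        M * Real.exp (β / (4 * ν * (1 - β)) * ∫ s in (0 : ℝ)..t, g s ^ 2)
          * (scf q (√(sg x)) / scf q ρ₀) ^ β < |circ (u t) x| →
        -(ν * q (√(sg x))) - g t * √(sg x) ≤ x 0 * u t x 0 + x 1 * u t x 1) →
      ∀ t ∈ Ico 0 T, ∀ x, √(sg x) ≤ ρ₀ → |circ (u t) x| ≤
        M * Real.exp (β / (4 * ν * (1 - β)) * ∫ s in (0 : ℝ)..t, g s ^ 2)
          * (scf q (√(sg x)) / scf q ρ₀) ^ β) ∧
    ∀ (u : ℝ → V → V) (p : ℝ → V → ℝ),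
      (∀ t₀ < 0, BSol ν (-t₀) (fun t => u (t₀ + t)) (fun t => p (t₀ + t))) →
      ∀ M : ℝ, (∀ t < 0, ∀ x, |circ (u t) x| ≤ M) →
      (∀ δ > 0, ∃ q g : ℝ → ℝ, ContinuousOn q (Ioi 0) ∧ (∀ ρ, 0 < ρ → 1 ≤ q ρ) ∧
        IntervalIntegrable (scd q) volume 0 1 ∧ Tendsto (scf q) atTop atTop ∧
        ContinuousOn g (Iio 0) ∧
        (∀ t < 0, ∃ C : ℝ, ∀ t₀ < t, ∫ s in t₀..t, g s ^ 2 ≤ C) ∧
        ∀ t < 0, ∀ x, 0 < sg x → δ < |circ (u t) x| →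
          -(ν * q (√(sg x))) - g t * √(sg x) ≤ x 0 * u t x 0 + x 1 * u t x 1) →
      ∀ t < 0, ∀ x, circ (u t) x = 0 :=
  ⟨fun _ _ _ h _ _ _ _ _ hα hαc hρ hρ1 hg hG hin hc =>
      cauchyLog hν h hα hαc hρ hρ1 hg hG hin hc,
    fun _ _ _ h _ _ _ _ _ hq h1q h01 hρ hβ hβ1 hg hin hin' hc =>
      cauchyFeller hν h hq h1q h01 hρ hβ hβ1 hg hin hin' hc,
    fun _ _ h _ hM hc => ancFeller hν h hM hc⟩

end Pool.Agent.Results.MP_09540e_an.CriticalInflow
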