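import Pool.Agent.Y7.AN.AxBA
import Pool.Agent.Y7.AN.Rp

/-!
Axisymmetric Navier-Stokes flows with swirl, up to a possible blow-up time: the supremum over the
points `x` of the distance to the axis times the inverse square of the regularity scale (defined
with the bounds of a real analytic function) is integrable in time (strong type, at the scaling
exponent). In particular the supremum over `x` of
`ρ |∇u|`, of `ρ |∇²u| ^ (2/3)`, and of the similar quantities for all derivatives, is integrable in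
time, and the supremum of `ρ |u|` is square integrable in time.

`V = Fin 3 → ℝ` with the maximum norm. See the claim file for the definitions.
-/

open MeasureTheory Set Metric
open scoped ENNReal

namespace Pool.Agent.Results.MP_09540e_an.EndpointRing

open H459R3.NS W221.NS Pool.Agent.TH305.AX

/-- The distance of `x` to the axis of symmetry. -/
noncomputable def axisDist (x : V) : ℝ := √(x 0 ^ 2 + x 1 ^ 2)

/-- On the ball of radius `r` around `x` the derivative of order `n + 1` of the field `v` has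
norm at most `C ^ (n + 1) * n! * ν / r ^ (n + 2)`, for every `n ≥ 0`. -/
def RegularBall (C ν : ℝ) (v : V → V) (x : V) (r : ℝ) : Prop :=
  0 < r ∧ ∀ y ∈ ball x r, ∀ n : ℕ,
    ‖iteratedFDeriv ℝ (n + 1) v y‖ ≤ C ^ (n + 1) * n.factorial * ν / r ^ (n + 2)

/-- `1 / r(x) ^ 2`, where the regularity scale `r(x)` is the supremum of the radii of the
regular balls around `x`. -/
noncomputable def invScaleSq (C ν : ℝ) (v : V → V) (x : V) : ℝ≥0∞ :=
  ⨅ r : ℝ, ⨅ _ : RegularBall C ν v x r, ENNReal.ofReal (1 / r ^ 2)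

/-- `∫∫ |∇u|²` over `(0, T) × ℝ³`. -/
noncomputable def dissipation (T : ℝ) (u : ℝ → V → V) : ℝ≥0∞ :=
  ∫⁻ t in Ioo 0 T, ∫⁻ x, ENNReal.ofReal (‖fderiv ℝ (u t) x‖ ^ 2)

/-- There is an absolute constant `C` with the following properties. Let `(u, p)` be a smooth
axisymmetric solution (with swirl) of the Navier-Stokes equations with viscosity `ν` and without
force on `(0, T) × ℝ³`, with `∫ |u|² ≤ E²` at all times; `T` may be the blow-up time. Let `ρ(x)` be
the distance of `x` to the axis, let `r(t, x)` be the regularity scale of `u t` at `x`, with the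
analytic constants `C ^ (n + 1) * n!`, and `I = ∫∫ |∇u|²`.

Then the integral over the times in `(0, T)` of the supremum over all points `x` of `ρ(x)` times the
positive part of `r(t, x) ^ (-2) - C / (ν t)` is at most `C I / ν²`. For all `L, t₀ > 0` the integral
over the times in `(t₀, T)` of the supremum over the points `x` with `ρ(x) ≤ L` of
`ρ(x) |∇ ^ (n + 1) u(t, x)| ^ (2 / (n + 2))` is at most
`C (n + 1) ^ 2 ν ^ (2 / (n + 2)) (I / ν² + (L / ν) log (T / t₀))`, for every `n ≥ 0`, and the one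
of the supremum of `(ρ(x) |u(t, x)|) ^ 2` is at most
`C (E² + ν² L) (I / ν² + (L / ν) log (T / t₀))`. -/
theorem result : ∃ C : ℝ, 0 < C ∧
    ∀ (ν T E : ℝ) (u : ℝ → V → V) (p : ℝ → V → ℝ), 0 < ν → 0 ≤ E → OSol ν T E univ u p →
      (∀ t ∈ Ioo 0 T, Axi (u t)) →
      (∫⁻ t in Ioo 0 T, ⨆ x : V, ENNReal.ofReal (axisDist x) *
          (invScaleSq C ν (u t) x - ENNReal.ofReal (C / (ν * t)))
        ≤ ENNReal.ofReal (C / ν ^ 2) * dissipation T u) ∧
      ∀ L t₀ : ℝ, 0 < L → 0 < t₀ →
        (∀ n : ℕ, ∫⁻ t in Ioo t₀ T, ⨆ x ∈ {x : V | axisDist x ≤ L}, ENNReal.ofReal (axisDist x *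
            ‖iteratedFDeriv ℝ (n + 1) (u t) x‖ ^ (2 / (n + 2) : ℝ))
          ≤ ENNReal.ofReal (C * (n + 1) ^ 2 * ν ^ (2 / (n + 2) : ℝ)) *
            (ENNReal.ofReal (1 / ν ^ 2) * dissipation T u
              + ENNReal.ofReal (L / ν * Real.log (T / t₀)))) ∧
        ∫⁻ t in Ioo t₀ T, ⨆ x ∈ {x : V | axisDist x ≤ L}, ENNReal.ofReal
            ((axisDist x * ‖u t x‖) ^ 2)
          ≤ ENNReal.ofReal (C * (E ^ 2 + ν ^ 2 * L)) *
            (ENNReal.ofReal (1 / ν ^ 2) * dissipation T u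
              + ENNReal.ofReal (L / ν * Real.log (T / t₀))) := by
  obtain ⟨C₀, hC₀, K, ⟨hK0, c, hc, hKc⟩, H⟩ := Pool.Agent.Y7.Ax.axFA Pool.Agent.Y7.a_locp
  obtain ⟨C, hC, hC1, hKC, -, b2⟩ := Pool.Agent.Y7.one_const hC₀ hc hK0 hKc
  have e2 : ∀ (v : V → V) (ν : ℝ) (x : V), invScaleSq C ν v x
      = Pool.Agent.Y7.invSc 2 1 (fun n : ℕ => C ^ (n + 1) * (n.factorial : ℝ)) ν v x :=
    fun v ν x => rfl
  refine ⟨C, hC, ?_⟩
  intro ν T E u p hν hE hS ha
  obtain ⟨h1, h2⟩ := H ν T E u p hν hE hS ha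
  refine ⟨?_, fun L t₀ hL ht₀ => ⟨fun n => ?_, ?_⟩⟩
  · refine le_trans ?_ (h1.trans (mul_le_mul_left (ENNReal.ofReal_le_ofReal (by gcongr)) _))
    refine setLIntegral_mono' measurableSet_Ioo fun t ht => iSup_mono fun x => ?_
    rw [e2]
    refine mul_le_mul' le_rfl (tsub_le_tsub (Pool.Agent.Y7.invSc_mono hKC hν _ _)
      (ENNReal.ofReal_le_ofReal ?_))
    have : 0 < ν * t := mul_pos hν ht.1
    gcongr
  · exact ((h2 L t₀ hL ht₀).1 n).trans (mul_le_mul_left (ENNReal.ofReal_le_ofReal (b2 n ν hν)) _)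
  · refine ((h2 L t₀ hL ht₀).2).trans (mul_le_mul_left (ENNReal.ofReal_le_ofReal ?_) _)
    gcongr

end Pool.Agent.Results.MP_09540e_an.EndpointRing
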