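import Pool.Agent.Y303.SK.XRes

/-!
MP_09540e_an: blow-up for axisymmetric Navier-Stokes flows in `ℝ³` with an additional skew-adjoint
linear term which does not act on the swirl, from a swirl-free datum.

For every viscosity `ν > 0` there are a complete orthonormal system `e` in the space of the
axisymmetric divergence-free fields, which consists of smooth compactly supported fields that are
either swirl-free or pure swirl, and a skew-adjoint linear operator `K = ∑ s i ⟨·, e (σ i)⟩ e i`
that vanishes on the swirl, such that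

  `∂ₜ u + (u · ∇) u + ∇p = ν Δ u + K u`,  `div u = 0`

with the swirl-free datum `u(0) = e i₀` has a unique maximal smooth solution in the class of the
axisymmetric flows; it is swirl-free, satisfies the energy identity of the Navier-Stokes equations
and its velocity blows up in finite time.
-/

set_option autoImplicit false

open Set MeasureTheory

namespace Pool.Agent.Results.MP_09540e_an.SkewTerm

open Pool.Agent.Y303.SKXR

theorem result (ν : ℝ) (hν : 0 < ν) :
    ∃ (ι : Type) (e : ι → EuclideanSpace ℝ (Fin 3) → EuclideanSpace ℝ (Fin 3)) (σ : ι → ι)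
      (s : ι → ℝ) (i₀ : ι) (T : ℝ) (u : ℝ → EuclideanSpace ℝ (Fin 3) → EuclideanSpace ℝ (Fin 3)),
      SkewX e σ s ∧ 0 < T ∧ SolX ν e σ s T u ∧ u 0 = e i₀ ∧
      -- the flow has no swirl
      (∀ t ∈ Ico 0 T, Pol (u t)) ∧
      -- uniqueness among axisymmetric flows, and `T` is the maximal time of existence
      (∀ (T' : ℝ) (v : ℝ → EuclideanSpace ℝ (Fin 3) → EuclideanSpace ℝ (Fin 3)), 0 < T' →
        SolX ν e σ s T' v → v 0 = e i₀ → T' ≤ T ∧ ∀ t ∈ Ico 0 T', v t = u t) ∧
      -- the energy identity of the Navier-Stokes equations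
      (∀ t ∈ Ico 0 T, HasDerivWithinAt (fun τ => ipr (u τ) (u τ)) (-(2 * (ν * dirf (u t) (u t))))
        (Ico 0 T) t) ∧
      -- blow-up of the velocity
      ∀ M : ℝ, ∃ t ∈ Ico 0 T, ∃ x, M < ‖u t x‖ :=
  t_RES ν hν

end Pool.Agent.Results.MP_09540e_an.SkewTerm
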